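import Pool.Agent.W308.GP.T3a

/-!
Project GP, task T3: straight lines give bridges of linear cost.
-/

set_option autoImplicit false

open Finset MeasureTheory ProbabilityTheory Filter Topology
open scoped ENNReal NNReal

namespace Pool.Agent.W308.GP.T3

open Pool.Agent.W844.VG (V stp nm)
open Pool.Agent.W844.GP

variable {d : ℕ}

/-! ### generic -/

theorem exK (ν : Measure ℝ) [IsProbabilityMeasure ν] {δ : ℝ≥0∞} (hδ : 0 < δ) :
    ∃ K : ℝ, 0 ≤ K ∧ ν (Set.Iio (-K)) ≤ δ := by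
  have h1 : Tendsto (fun n : ℕ => ν (Set.Iio (-(n : ℝ)))) atTop
      (𝓝 (ν (⋂ n : ℕ, Set.Iio (-(n : ℝ))))) := by
    refine tendsto_measure_iInter_atTop (fun n => measurableSet_Iio.nullMeasurableSet) ?_
      ⟨0, measure_ne_top _ _⟩
    intro m n hmn x hx
    rw [Set.mem_Iio] at hx ⊢
    have : (m : ℝ) ≤ n := by exact_mod_cast hmn
    linarith
  have h2 : (⋂ n : ℕ, Set.Iio (-(n : ℝ))) = ∅ := by
    rw [Set.eq_empty_iff_forall_notMem]
    intro x hx
    rw [Set.mem_iInter] at hx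
    obtain ⟨n, hn⟩ := exists_nat_gt (-x)
    have := hx n
    rw [Set.mem_Iio] at this
    linarith
  rw [h2, measure_empty] at h1
  obtain ⟨n, hn⟩ := (h1.eventually (Iic_mem_nhds hδ)).exists
  exact ⟨n, Nat.cast_nonneg n, hn⟩

theorem law_eval (ν : Measure ℝ) [IsProbabilityMeasure ν] (x : V d) (a : ℝ) :
    law ν d {w | w x < a} = ν (Set.Iio a) := by
  have h := (measurePreserving_eval_infinitePi (fun _ : V d => ν) x).measure_preimage
    (measurableSet_Iio (a := a)).nullMeasurableSet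
  exact h

instance law_prob (ν : Measure ℝ) [IsProbabilityMeasure ν] : IsProbabilityMeasure (law ν d) := by
  unfold law
  infer_instance

/-! ### the size of the cluster -/

/-- coefficients -/
def ck (d k : ℕ) : ℕ := (2 * k + 1) * (2 * k + 7) ^ (2 * d)

theorem summable_ck (d : ℕ) : Summable fun k : ℕ => (ck d k : ℝ) * Real.exp (-(4 * k)) := by
  have h1 := Real.summable_pow_mul_exp_neg_nat_mul (2 * d + 1) (r := 4) (by norm_num)
  have h2 := ((summable_nat_add_iff 1).2 h1).mul_left ((9 : ℝ) ^ (2 * d + 1) * Real.exp 4)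
  refine Summable.of_nonneg_of_le (fun k => by positivity) (fun k => ?_) h2
  have h3 : (ck d k : ℝ) ≤ 9 ^ (2 * d + 1) * ((k : ℝ) + 1) ^ (2 * d + 1) := by
    have h4 : ck d k ≤ (9 * (k + 1)) ^ (2 * d + 1) := by
      unfold ck
      calc (2 * k + 1) * (2 * k + 7) ^ (2 * d) ≤ (9 * (k + 1)) * (9 * (k + 1)) ^ (2 * d) :=
            Nat.mul_le_mul (by omega) (Nat.pow_le_pow_left (by omega) _)
        _ = (9 * (k + 1)) ^ (2 * d + 1) := by ring
    have h5 : (ck d k : ℝ) ≤ (((9 * (k + 1)) ^ (2 * d + 1) : ℕ) : ℝ) := by exact_mod_cast h4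
    refine h5.trans (le_of_eq ?_)
    push_cast
    rw [mul_pow]
  have h6 : Real.exp (-(4 * (k : ℝ))) = Real.exp 4 * Real.exp (-4 * ((k + 1 : ℕ) : ℝ)) := by
    rw [← Real.exp_add]
    congr 1
    push_cast
    ring
  rw [h6]
  have h7 := mul_le_mul_of_nonneg_right h3
    (show 0 ≤ Real.exp 4 * Real.exp (-4 * ((k + 1 : ℕ) : ℝ)) by positivity)
  refine h7.trans (le_of_eq ?_)
  push_cast
  ring

open scoped Classical in
/-- truncated size -/
noncomputable def Wr (d : ℕ) (K : ℝ) (r : ℕ) (w : V d → ℝ) : ℝ≥0∞ :=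
  ∑ k ∈ range r, if Far K w 0 k then ((2 * k + 7) ^ d : ℝ≥0∞) else 0

open scoped Classical in
/-- bound of the square -/
noncomputable def Ur (d : ℕ) (K : ℝ) (r : ℕ) (w : V d → ℝ) : ℝ≥0∞ :=
  ∑ k ∈ range r, if Far K w 0 k then (ck d k : ℝ≥0∞) else 0

theorem cast7 (p k : ℕ) : ((2 * k + 7) ^ p : ℝ≥0∞) = (((2 * k + 7) ^ p : ℕ) : ℝ≥0∞) := by
  push_cast
  rfl

theorem Wr_le_Ur (K : ℝ) (r : ℕ) (w : V d → ℝ) : Wr d K r w ≤ Ur d K r w := by
  unfold Wr Ur
  refine sum_le_sum fun k _ => ?_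
  split_ifs
  · rw [cast7, Nat.cast_le]
    unfold ck
    calc (2 * k + 7) ^ d ≤ (2 * k + 7) ^ (2 * d) := Nat.pow_le_pow_right (by omega) (by omega)
      _ ≤ (2 * k + 1) * (2 * k + 7) ^ (2 * d) := Nat.le_mul_of_pos_left _ (by omega)
  · exact le_rfl

theorem Wr_le (K : ℝ) (r : ℕ) (w : V d → ℝ) : Wr d K r w ≤ ((r * (2 * r + 7) ^ d : ℕ) : ℝ≥0∞) := by
  unfold Wr
  have h1 : ∀ k ∈ range r, (open Classical in
      if Far K w 0 k then ((2 * k + 7) ^ d : ℝ≥0∞) else 0) ≤ (((2 * r + 7) ^ d : ℕ) : ℝ≥0∞) := by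
    intro k hk
    rw [mem_range] at hk
    split_ifs
    · rw [cast7, Nat.cast_le]
      exact Nat.pow_le_pow_left (by omega) d
    · exact zero_le
  refine (sum_le_sum h1).trans (le_of_eq ?_)
  rw [sum_const, card_range, nsmul_eq_mul]
  push_cast
  rfl

theorem Wr_sq_le (K : ℝ) (r : ℕ) (w : V d → ℝ) : (Wr d K r w) ^ 2 ≤ Ur d K r w := by
  induction r with
  | zero => simp [Wr, Ur]
  | succ r ih =>
    have h1 : Wr d K (r + 1) w = Wr d K r w + (open Classical in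
        if Far K w 0 r then ((2 * r + 7) ^ d : ℝ≥0∞) else 0) := by
      unfold Wr
      rw [sum_range_succ]
    have h2 : Ur d K (r + 1) w = Ur d K r w + (open Classical in
        if Far K w 0 r then (ck d r : ℝ≥0∞) else 0) := by
      unfold Ur
      rw [sum_range_succ]
    rw [h1, h2]
    by_cases hf : Far K w 0 r
    · rw [if_pos hf, if_pos hf, add_sq, add_assoc]
      refine add_le_add ih ?_
      have h3 := Wr_le K r w
      calc 2 * Wr d K r w * (2 * r + 7) ^ d + ((2 * r + 7) ^ d) ^ 2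
          ≤ 2 * ((r * (2 * r + 7) ^ d : ℕ) : ℝ≥0∞) * (2 * r + 7) ^ d + ((2 * r + 7) ^ d) ^ 2 := by
            gcongr
        _ = (ck d r : ℝ≥0∞) := by
            unfold ck
            push_cast
            ring
    · rw [if_neg hf, if_neg hf, add_zero, add_zero]
      exact ih

theorem Wr_dep (i : Fin d) (K : ℝ) (r : ℕ) :
    DependsOn (Wr d K r) {x : V d | -(r : ℤ) ≤ x i ∧ x i ≤ ((1 : ℕ) : ℤ) + r} := by
  intro w w' hww
  unfold Wr
  refine sum_congr rfl fun k hk => ?_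
  rw [mem_range] at hk
  have hag : ∀ z : V d, nm (z - 0) ≤ k + 1 → w z = w' z := by
    intro z hz
    apply hww
    rw [sub_zero] at hz
    have := nm_le_iff.1 hz i
    rw [Set.mem_ofPred_eq]
    omega
  have h : Far K w 0 k ↔ Far K w' 0 k :=
    ⟨fun hf => far_dep hag hf, fun hf => far_dep (fun z hz => (hag z hz).symm) hf⟩
  by_cases hf : Far K w 0 k
  · rw [if_pos hf, if_pos (h.1 hf)]
  · rw [if_neg hf, if_neg (fun hf' => hf (h.2 hf'))]

theorem GG_eq_Wr {K : ℝ} {r : ℕ} {w : V d → ℝ} (h : ¬ Far K w 0 r) :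
    GG d K w 0 = Wr d K r w := by
  unfold GG Wr
  refine tsum_eq_sum fun k hk => ?_
  rw [mem_range, not_lt] at hk
  rw [if_neg]
  intro hf
  exact h (far_mono hk hf)

theorem Wr_meas (hM : S_MEAS) (K : ℝ) (r : ℕ) : Measurable (Wr d K r) := by
  unfold Wr
  refine Finset.measurable_sum _ fun k _ => ?_
  exact Measurable.ite ((hM d).2.2.1 K 0 k) measurable_const measurable_const

theorem Ur_int (hM : S_MEAS) (hT : S_TAIL) (ν : Measure ℝ) [IsProbabilityMeasure ν] {K : ℝ}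
    (hK : ν (Set.Iio (-K)) ≤ q0 d) (r : ℕ) :
    ∫⁻ w, Ur d K r w ∂law ν d ≤
      ENNReal.ofReal (∑' k : ℕ, (ck d k : ℝ) * Real.exp (-(4 * k))) := by
  classical
  unfold Ur
  rw [lintegral_finsetSum _ fun k _ =>
    Measurable.ite ((hM d).2.2.1 K 0 k) measurable_const measurable_const]
  have h1 : ∀ k ∈ range r, ∫⁻ w, (open Classical in
      if Far K w 0 k then (ck d k : ℝ≥0∞) else 0) ∂law ν d ≤
        ENNReal.ofReal ((ck d k : ℝ) * Real.exp (-(4 * k))) := by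
    intro k _
    have h2 : (fun w : V d → ℝ => (open Classical in
        if Far K w 0 k then (ck d k : ℝ≥0∞) else 0)) =
        Set.indicator {w | Far K w 0 k} (fun _ => (ck d k : ℝ≥0∞)) := by
      funext w
      rw [Set.indicator_apply]
      rfl
    rw [h2, lintegral_indicator_const ((hM d).2.2.1 K 0 k),
      ENNReal.ofReal_mul (Nat.cast_nonneg _), ENNReal.ofReal_natCast]
    exact mul_le_mul_right (hT d ν K hK 0 k).1 _
  refine (sum_le_sum h1).trans ?_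
  rw [← ENNReal.ofReal_sum_of_nonneg (fun k _ => by positivity)]
  exact ENNReal.ofReal_le_ofReal
    ((summable_ck d).sum_le_tsum _ (fun k _ => by positivity))

theorem eventA (hSUM : S_SUM) (hM : S_MEAS) (hT : S_TAIL) (i : Fin d) (ν : Measure ℝ)
    [IsProbabilityMeasure ν] {K : ℝ} (hK : ν (Set.Iio (-K)) ≤ q0 d) :
    ∃ (c : ℕ) (C' : ℝ), ∀ h : ℕ, 1 ≤ h →
      law ν d {w | ((c * h : ℕ) : ℝ≥0∞) ≤ ∑ j ∈ range h, GG d K w (pt i j)} ≤
        ENNReal.ofReal (C' / Real.sqrt h) := by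
  set C : ℝ := 1 + ∑' k : ℕ, (ck d k : ℝ) * Real.exp (-(4 * k)) with hC
  have hC0 : 0 ≤ ∑' k : ℕ, (ck d k : ℝ) * Real.exp (-(4 * k)) :=
    tsum_nonneg fun k => by positivity
  obtain ⟨c, hc⟩ := exists_nat_gt C
  have hint : ∀ r, ∫⁻ w, Ur d K r w ∂law ν d ≤ ENNReal.ofReal C := fun r =>
    (Ur_int hM hT ν hK r).trans (ENNReal.ofReal_le_ofReal (by linarith))
  obtain ⟨C', hC'⟩ := hSUM d i ν 1 le_rfl (fun w => GG d K w 0) (Wr d K) C C ((hM d).2.2.2.2.2.2 d K 0)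
    (Wr_meas hM K) (Wr_dep i K) (by linarith) (by linarith) (by
      intro r
      have h1 : {w : V d → ℝ | GG d K w 0 ≠ Wr d K r w} ⊆ {w | Far K w 0 r} := by
        intro w hw
        by_contra hf
        exact hw (GG_eq_Wr hf)
      refine (measure_mono h1).trans ((hT d ν K hK 0 r).1.trans (ENNReal.ofReal_le_ofReal ?_))
      have h2 : Real.exp (-(4 * (r : ℝ))) ≤ Real.exp (-(r : ℝ)) := by
        apply Real.exp_le_exp.2
        have : (0 : ℝ) ≤ r := Nat.cast_nonneg r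
        linarith
      have h3 := Real.exp_pos (-(r : ℝ))
      nlinarith)
    (fun r => (lintegral_mono fun w => Wr_sq_le K r w).trans (hint r))
    (fun r => (lintegral_mono fun w => Wr_le_Ur K r w).trans (hint r)) (c - C) (by linarith)
  refine ⟨c, C', fun h hh => ?_⟩
  refine le_trans (le_of_eq ?_) (hC' h hh)
  congr 1
  ext w
  rw [Set.mem_ofPred_eq, Set.mem_ofPred_eq]
  have h1 : ENNReal.ofReal ((C + (c - C)) * h) = ((c * h : ℕ) : ℝ≥0∞) := by
    rw [← ENNReal.ofReal_natCast]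
    congr 1
    push_cast
    ring
  have h2 : ∀ j : ℕ, GG d K (sh (pt i ((j : ℤ) * ((1 : ℕ) : ℤ))) w) 0 = GG d K w (pt i j) := by
    intro j
    rw [GG_sh]
    simp
  simp only [h1, h2]

/-! ### the other events -/

theorem eventB (hT : S_TAIL) (i : Fin d) (ν : Measure ℝ)
    [IsProbabilityMeasure ν] {K : ℝ} (hK : ν (Set.Iio (-K)) ≤ q0 d) (T h : ℕ) (hT4 : 4 ≤ T) :
    law ν d {w | ∃ m : ℕ, T ≤ m ∧ m + T ≤ h ∧ Far K w (pt i m) (min m (h - m) - 3)} ≤
      ∑' k : ℕ, ENNReal.ofReal (Real.exp (-(4 * ((k + (T - 3) : ℕ) : ℝ)))) +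
      ∑' k : ℕ, ENNReal.ofReal (Real.exp (-(4 * ((k + (T - 3) : ℕ) : ℝ)))) := by
  have h1 : {w : V d → ℝ | ∃ m : ℕ, T ≤ m ∧ m + T ≤ h ∧ Far K w (pt i m) (min m (h - m) - 3)} ⊆
      (⋃ k : ℕ, {w | Far K w (pt i ((k + T : ℕ) : ℤ)) (k + (T - 3))}) ∪
      (⋃ k : ℕ, {w | Far K w (pt i ((h : ℤ) - ((k + T : ℕ) : ℤ))) (k + (T - 3))}) := by
    rintro w ⟨m, h1, h2, h3⟩
    rcases Nat.le_total m (h - m) with h4 | h4
    · left
      rw [Set.mem_iUnion]
      refine ⟨m - T, ?_⟩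
      rw [Set.mem_ofPred_eq]
      rw [min_eq_left h4] at h3
      have e1 : m - T + T = m := by omega
      have e2 : m - T + (T - 3) = m - 3 := by omega
      rw [e1, e2]
      exact h3
    · right
      rw [Set.mem_iUnion]
      refine ⟨h - m - T, ?_⟩
      rw [Set.mem_ofPred_eq]
      rw [min_eq_right h4] at h3
      have e1 : ((h : ℤ) - ((h - m - T + T : ℕ) : ℤ)) = m := by omega
      have e2 : h - m - T + (T - 3) = h - m - 3 := by omega
      rw [e1, e2]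
      exact h3
  refine (measure_mono h1).trans ((measure_union_le _ _).trans (add_le_add ?_ ?_))
  · refine (measure_iUnion_le _).trans (ENNReal.tsum_le_tsum fun k => ?_)
    exact (hT d ν K hK _ _).1
  · refine (measure_iUnion_le _).trans (ENNReal.tsum_le_tsum fun k => ?_)
    exact (hT d ν K hK _ _).1

theorem eventC (i : Fin d) (ν : Measure ℝ) [IsProbabilityMeasure ν] (T h : ℕ) (A0 : ℝ) :
    law ν d {w | ∃ m : ℕ, 1 ≤ m ∧ m ≤ h ∧ (m < T ∨ h < m + T) ∧ w (pt i m) < -A0} ≤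
      ((2 * T : ℕ) : ℝ≥0∞) * ν (Set.Iio (-A0)) := by
  have h1 : {w : V d → ℝ | ∃ m : ℕ, 1 ≤ m ∧ m ≤ h ∧ (m < T ∨ h < m + T) ∧ w (pt i m) < -A0} ⊆
      ⋃ m ∈ (Icc 1 h).filter (fun m => m < T ∨ h < m + T), {w : V d → ℝ | w (pt i (m : ℤ)) < -A0} := by
    rintro w ⟨m, h1, h2, h3, h4⟩
    rw [Set.mem_iUnion₂]
    exact ⟨m, mem_filter.2 ⟨mem_Icc.2 ⟨h1, h2⟩, h3⟩, h4⟩
  refine (measure_mono h1).trans ((measure_biUnion_finset_le _ _).trans ?_)
  simp only [law_eval, sum_const, nsmul_eq_mul]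
  refine mul_le_mul_left (Nat.cast_le.2 ?_) _
  have h7 : (Icc 1 h).filter (fun m => m < T ∨ h < m + T) ⊆ Icc 1 T ∪ Ioc (h - T) h := by
    intro m hm
    rw [mem_filter, mem_Icc] at hm
    rw [mem_union, mem_Icc, mem_Ioc]
    omega
  refine (card_le_card h7).trans ((card_union_le _ _).trans ?_)
  rw [Nat.card_Icc, Nat.card_Ioc]
  omega

/-- **straight lines give bridges of linear cost** -/
theorem main : S_TAIL → S_SUM → S_RUN → S_MEAS → S_T3 := by
  intro hTAIL hSUM hRUN hM d i hd ν hν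
  have hq : 0 < q0 d := by
    unfold q0
    rw [ENNReal.ofReal_pos]
    positivity
  obtain ⟨K, hK0, hK⟩ := exK ν hq
  obtain ⟨c, C', hA⟩ := eventA hSUM hM hTAIL i ν hK
  refine ⟨K * (1 + c) + 1, c + 1, by positivity, by omega, ?_⟩
  rw [ENNReal.tendsto_atTop_zero]
  intro ε hε
  have hε3 : 0 < ε / 3 := ENNReal.div_pos hε.ne' (by norm_num)
  -- the sum of the tails
  set g : ℕ → ℝ≥0∞ := fun k => ENNReal.ofReal (Real.exp (-(4 * (k : ℝ)))) with hg
  have hgs : ∑' k, g k ≠ ⊤ := by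
    have h1 := Real.summable_pow_mul_exp_neg_nat_mul 0 (r := 4) (by norm_num)
    have h2 : Summable fun k : ℕ => Real.exp (-(4 * (k : ℝ))) := by
      refine h1.congr fun k => ?_
      rw [pow_zero, one_mul]
      congr 1
      ring
    rw [hg, ← ENNReal.ofReal_tsum_of_nonneg (fun k => (Real.exp_pos _).le) h2]
    exact ENNReal.ofReal_ne_top
  have hε6 : 0 < ε / 3 / 2 := ENNReal.div_pos hε3.ne' (by norm_num)
  obtain ⟨s, hs⟩ := ((ENNReal.tendsto_sum_nat_add g hgs).eventually (Iic_mem_nhds hε6)).exists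
  have hs2 : ∑' k, g (k + (s + 4 - 3)) ≤ ε / 3 / 2 := by
    refine le_trans (ENNReal.tsum_le_tsum fun k => ?_) hs
    rw [hg]
    refine ENNReal.ofReal_le_ofReal (Real.exp_le_exp.2 ?_)
    have : ((k + s : ℕ) : ℝ) ≤ ((k + (s + 4 - 3) : ℕ) : ℝ) := by
      exact_mod_cast (by omega : k + s ≤ k + (s + 4 - 3))
    linarith
  set T : ℕ := s + 4 with hTdef
  have hcard0 : ((2 * T : ℕ) : ℝ≥0∞) ≠ 0 := by
    rw [Nat.cast_ne_zero]
    omega
  have hcard1 : ((2 * T : ℕ) : ℝ≥0∞) ≠ ⊤ := ENNReal.natCast_ne_top _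
  obtain ⟨A0, hA00, hA0⟩ := exK ν (ENNReal.div_pos hε3.ne' hcard1)
  have hA1 : ((2 * T : ℕ) : ℝ≥0∞) * ν (Set.Iio (-A0)) ≤ ε / 3 := by
    rw [mul_comm]
    exact (ENNReal.le_div_iff_mul_le (Or.inl hcard0) (Or.inl hcard1)).1 hA0
  -- the first event
  have hlim : Tendsto (fun h : ℕ => ENNReal.ofReal (C' / Real.sqrt h)) atTop (𝓝 0) := by
    have h1 : Tendsto (fun h : ℕ => C' / Real.sqrt h) atTop (𝓝 0) :=
      Tendsto.div_atTop tendsto_const_nhds
        (Real.tendsto_sqrt_atTop.comp tendsto_natCast_atTop_atTop)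
    have h2 := ENNReal.tendsto_ofReal h1
    rwa [ENNReal.ofReal_zero] at h2
  obtain ⟨N1, hN1⟩ := (eventually_atTop.1 (hlim.eventually (Iic_mem_nhds hε3)))
  obtain ⟨N2, hN2⟩ := exists_nat_ge (2 * T * A0)
  refine ⟨max (max N1 N2) 1, fun h hh => ?_⟩
  have hh1 : N1 ≤ h := by omega
  have hh2 : N2 ≤ h := by omega
  have hh3 : 1 ≤ h := by omega
  have hsub : {w : V d → ℝ | ¬ YY w i (c + 1) h (-((K * (1 + c) + 1) * h))} ⊆
      ({w | ((c * h : ℕ) : ℝ≥0∞) ≤ ∑ j ∈ range h, GG d K w (pt i j)} ∪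
      {w | ∃ m : ℕ, T ≤ m ∧ m + T ≤ h ∧ Far K w (pt i m) (min m (h - m) - 3)}) ∪
      {w | ∃ m : ℕ, 1 ≤ m ∧ m ≤ h ∧ (m < T ∨ h < m + T) ∧ w (pt i m) < -A0} := by
    intro w hw
    by_contra hcon
    simp only [Set.mem_union, Set.mem_ofPred_eq, not_or, not_exists, not_and, not_le, not_lt] at hcon
    obtain ⟨⟨h1, h2⟩, h3⟩ := hcon
    refine hw (det hRUN hd hK0 hA00 (T := T) (h := h) (c := c) (by omega) h2 h3 h1.le ?_)
    have : (N2 : ℝ) ≤ h := by exact_mod_cast hh2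
    linarith
  refine (measure_mono hsub).trans ((measure_union_le _ _).trans ?_)
  have e1 := (hA h hh3).trans (hN1 h hh1)
  have e2 := eventB hTAIL i ν hK T h (by omega)
  have e3 := eventC i ν T h A0
  calc law ν d ({w | ((c * h : ℕ) : ℝ≥0∞) ≤ ∑ j ∈ range h, GG d K w (pt i j)} ∪
      {w | ∃ m : ℕ, T ≤ m ∧ m + T ≤ h ∧ Far K w (pt i m) (min m (h - m) - 3)}) +
      law ν d {w | ∃ m : ℕ, 1 ≤ m ∧ m ≤ h ∧ (m < T ∨ h < m + T) ∧ w (pt i m) < -A0}
      ≤ (ε / 3 + (ε / 3 / 2 + ε / 3 / 2)) + ε / 3 := by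
        refine add_le_add ((measure_union_le _ _).trans (add_le_add e1 ?_)) (e3.trans hA1)
        exact e2.trans (add_le_add hs2 hs2)
    _ = ε := by
        rw [ENNReal.add_halves, ENNReal.add_thirds]

end Pool.Agent.W308.GP.T3
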