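import Pool.Agent.W844.GP.Defs

/-!
Project GP, task T3: basic lemmas on closed clusters, straight lines and the deterministic part.
-/

set_option autoImplicit false

open Finset MeasureTheory ProbabilityTheory Filter Topology
open scoped ENNReal NNReal

namespace Pool.Agent.W308.GP.T3

open Pool.Agent.W844.VG (V stp nm)
open Pool.Agent.W844.GP

variable {d : ℕ}

theorem nm_le_iff {x : V d} {n : ℕ} : nm x ≤ n ↔ ∀ j, (x j).natAbs ≤ n := by
  unfold nm
  rw [Finset.sup_le_iff]
  exact ⟨fun h j => h j (mem_univ _), fun h j _ => h j⟩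

theorem nm_zero : nm (0 : V d) = 0 := by
  have : nm (0 : V d) ≤ 0 := nm_le_iff.2 fun j => by simp
  omega

theorem nm_add_le (x y : V d) : nm (x + y) ≤ nm x + nm y := by
  rw [nm_le_iff]
  intro j
  have h1 := (nm_le_iff (x := x)).1 le_rfl j
  have h2 := (nm_le_iff (x := y)).1 le_rfl j
  have h3 := Int.natAbs_add_le (x j) (y j)
  rw [Pi.add_apply]
  omega

/-! ### clusters -/

theorem mem_hull {Z : Set (V d)} {x y : V d} :
    y ∈ Hull Z {x} ↔ Relation.ReflTransGen (fun a b => b ∈ Z ∧ nm (b - a) ≤ 2) x y := by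
  unfold Hull
  constructor
  · rintro ⟨x', hx', h⟩
    rw [Set.mem_singleton_iff] at hx'
    rwa [hx'] at h
  · intro h
    exact ⟨x, rfl, h⟩

theorem far_zero (K : ℝ) (w : V d → ℝ) (x : V d) : Far K w x 0 :=
  ⟨x, mem_hull.2 Relation.ReflTransGen.refl, Nat.zero_le _⟩

theorem far_mono {K : ℝ} {w : V d → ℝ} {x : V d} {k k' : ℕ} (h : k' ≤ k) (hf : Far K w x k) :
    Far K w x k' := by
  obtain ⟨y, hy, hk⟩ := hf
  exact ⟨y, hy, h.trans hk⟩

theorem far_dep {K : ℝ} {w w' : V d → ℝ} {x : V d} {k : ℕ}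
    (h : ∀ z, nm (z - x) ≤ k + 1 → w z = w' z) (hf : Far K w x k) : Far K w' x k := by
  obtain ⟨y, hy, hk⟩ := hf
  rw [mem_hull] at hy
  have key : ∀ y, Relation.ReflTransGen (fun a b => b ∈ Cl K w ∧ nm (b - a) ≤ 2) x y →
      Far K w' x k ∨ (Relation.ReflTransGen (fun a b => b ∈ Cl K w' ∧ nm (b - a) ≤ 2) x y ∧
        nm (y - x) < k) := by
    intro y hy
    induction hy with
    | refl =>
      rcases Nat.eq_zero_or_pos k with h0 | h0
      · left
        rw [h0]
        exact far_zero K w' x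
      · right
        refine ⟨Relation.ReflTransGen.refl, ?_⟩
        rw [sub_self, nm_zero]
        exact h0
    | @tail b c hb hbc ih =>
      rcases ih with ih | ⟨ih1, ih2⟩
      · exact Or.inl ih
      · have h1 : nm (c - x) ≤ k + 1 := by
          have h2 := nm_add_le (c - b) (b - x)
          rw [sub_add_sub_cancel] at h2
          have h3 := hbc.2
          omega
        have h4 : c ∈ Cl K w' := by
          have h5 := hbc.1
          unfold Cl at h5 ⊢
          rw [Set.mem_ofPred_eq] at h5 ⊢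
          rwa [← h c h1]
        have h6 : Relation.ReflTransGen (fun a b => b ∈ Cl K w' ∧ nm (b - a) ≤ 2) x c :=
          ih1.tail ⟨h4, hbc.2⟩
        rcases Nat.lt_or_ge (nm (c - x)) k with h7 | h7
        · exact Or.inr ⟨h6, h7⟩
        · exact Or.inl ⟨c, mem_hull.2 h6, h7⟩
  rcases key y hy with h1 | h1
  · exact h1
  · omega

theorem far_sh {K : ℝ} {w : V d → ℝ} {x a : V d} {k : ℕ} :
    Far K (sh a w) x k ↔ Far K w (x + a) k := by
  constructor
  · rintro ⟨y, hy, hk⟩
    rw [mem_hull] at hy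
    refine ⟨y + a, mem_hull.2 ?_, ?_⟩
    · refine Relation.ReflTransGen.lift (fun z => z + a) ?_ _ _ hy
      rintro b c ⟨h1, h2⟩
      refine ⟨h1, ?_⟩
      rwa [add_sub_add_right_eq_sub]
    · rwa [add_sub_add_right_eq_sub]
  · rintro ⟨y, hy, hk⟩
    rw [mem_hull] at hy
    have h3 : Relation.ReflTransGen (fun p q => q ∈ Cl K (sh a w) ∧ nm (q - p) ≤ 2)
        (x + a - a) (y - a) := by
      refine Relation.ReflTransGen.lift (fun z => z - a) ?_ _ _ hy
      rintro b c ⟨h1, h2⟩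
      refine ⟨?_, ?_⟩
      · unfold Cl sh at *
        rw [Set.mem_ofPred_eq] at *
        rwa [sub_add_cancel]
      · rwa [sub_sub_sub_cancel_right]
    rw [add_sub_cancel_right] at h3
    refine ⟨y - a, mem_hull.2 h3, ?_⟩
    have h4 : y - a - x = y - (x + a) := by abel
    rwa [h4]

theorem GG_sh (p : ℕ) (K : ℝ) (w : V d → ℝ) (a : V d) : GG p K (sh a w) 0 = GG p K w a := by
  unfold GG
  refine tsum_congr fun k => ?_
  have h : Far K (sh a w) 0 k ↔ Far K w a k := by rw [far_sh, zero_add]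
  by_cases hk : Far K w a k
  · rw [if_pos hk, if_pos (h.2 hk)]
  · rw [if_neg hk, if_neg (fun hk' => hk (h.1 hk'))]

theorem GG_ge {p : ℕ} {K : ℝ} {w : V d → ℝ} {x : V d} {k : ℕ} (h : Far K w x k) :
    ((2 * k + 7) ^ p : ℝ≥0∞) ≤ GG p K w x := by
  unfold GG
  refine le_trans (le_of_eq ?_) (ENNReal.le_tsum k)
  rw [if_pos h]

/-! ### balls -/

/-- ball of radius `r` -/
noncomputable def ball (x : V d) (r : ℕ) : Finset (V d) := Fintype.piFinset fun j => Icc (x j - r) (x j + r)

theorem mem_ball {x z : V d} {r : ℕ} : z ∈ ball x r ↔ nm (z - x) ≤ r := by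
  unfold ball
  rw [Fintype.mem_piFinset, nm_le_iff]
  refine forall_congr' fun j => ?_
  rw [mem_Icc, Pi.sub_apply]
  omega

theorem card_ball (x : V d) (r : ℕ) : (ball x r).card = (2 * r + 1) ^ d := by
  unfold ball
  rw [Fintype.card_piFinset]
  have h : ∀ j : Fin d, (Icc (x j - (r : ℤ)) (x j + r)).card = 2 * r + 1 := by
    intro j
    rw [Int.card_Icc]
    omega
  simp only [h, prod_const, card_univ, Fintype.card_fin]

/-! ### the straight line -/

theorem pt_inj (i : Fin d) : Function.Injective (pt i) := by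
  intro m m' h
  have := congrFun h i
  simpa [pt] using this

theorem adj_pt (i : Fin d) (m : ℤ) : adj (pt i m) (pt i (m + 1)) := by
  unfold adj pt
  rw [Finset.sum_eq_single i]
  · simp
  · intro j _ hj
    simp [hj]
  · simp

/-- the vertices `e_i, ..., h e_i` -/
def line (i : Fin d) (h : ℕ) : List (V d) := (List.range h).map fun m : ℕ => pt i ((m : ℤ) + 1)

theorem line_cons (i : Fin d) (h : ℕ) :
    (0 : V d) :: line i h = (List.range (h + 1)).map fun m : ℕ => pt i (m : ℤ) := by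
  rw [List.range_succ_eq_map, List.map_cons, List.map_map]
  unfold line
  have h0 : pt i ((0 : ℕ) : ℤ) = 0 := by simp [pt]
  rw [h0]
  congr 1

theorem length_line (i : Fin d) (h : ℕ) : (line i h).length = h := by simp [line]

theorem mem_line {i : Fin d} {h : ℕ} {z : V d} (hz : z ∈ line i h) :
    ∃ m : ℕ, 1 ≤ m ∧ m ≤ h ∧ z = pt i m := by
  unfold line at hz
  rw [List.mem_map] at hz
  obtain ⟨m, hm, rfl⟩ := hz
  rw [List.mem_range] at hm
  exact ⟨m + 1, by omega, by omega, by push_cast; rfl⟩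

theorem SB_line (i : Fin d) (h : ℕ) : SB i (line i h) 0 (pt i h) := by
  unfold SB IsP
  rw [line_cons]
  refine ⟨⟨?_, ?_⟩, ?_, ?_⟩
  · rw [List.isChain_map, List.isChain_range_succ]
    intro m _
    have := adj_pt i (m : ℤ)
    simpa using this
  · refine List.Nodup.map ?_ List.nodup_range
    intro m m' hm
    have := pt_inj i hm
    exact_mod_cast this
  · rw [List.range_succ, List.map_append]
    simp
  · intro z hz
    obtain ⟨m, h1, h2, rfl⟩ := mem_line hz
    simp only [pt, Pi.single_eq_same, Pi.zero_apply]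
    omega

/-! ### the deterministic part -/

open scoped Classical in
/-- radius of the cluster of `pt i m` (truncated) -/
noncomputable def rad (K : ℝ) (w : V d → ℝ) (i : Fin d) (h m : ℕ) : ℕ :=
  Nat.findGreatest (fun k => Far K w (pt i m) k) (min m (h - m) - 3)

theorem far_rad (K : ℝ) (w : V d → ℝ) (i : Fin d) (h m : ℕ) :
    Far K w (pt i m) (rad K w i h m) := by
  classical
  exact Nat.findGreatest_spec (P := fun k => Far K w (pt i m) k) (Nat.zero_le _) (far_zero K w _)

theorem rad_lt {K : ℝ} {w : V d → ℝ} {i : Fin d} {h m : ℕ}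
    (hb : ¬ Far K w (pt i m) (min m (h - m) - 3)) : rad K w i h m < min m (h - m) - 3 := by
  classical
  have h1 : rad K w i h m ≤ min m (h - m) - 3 := Nat.findGreatest_le _
  rcases Nat.lt_or_ge (rad K w i h m) (min m (h - m) - 3) with h2 | h2
  · exact h2
  · exfalso
    apply hb
    have h3 : min m (h - m) - 3 = rad K w i h m := le_antisymm h2 h1
    rw [h3]
    exact far_rad K w i h m

theorem nm_le_rad {K : ℝ} {w : V d → ℝ} {i : Fin d} {h m : ℕ}
    (hb : ¬ Far K w (pt i m) (min m (h - m) - 3)) {y : V d}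
    (hy : y ∈ Hull (Cl K w) {pt i m}) : nm (y - pt i m) ≤ rad K w i h m := by
  classical
  have h1 : Far K w (pt i m) (nm (y - pt i m)) := ⟨y, hy, le_rfl⟩
  rcases Nat.lt_or_ge (min m (h - m) - 3) (nm (y - pt i m)) with h2 | h2
  · exact absurd (far_mono h2.le h1) hb
  · exact Nat.le_findGreatest h2 h1

theorem pt_same (i : Fin d) (m : ℤ) : pt i m i = m := by simp [pt]

theorem det (hRUN : S_RUN) {i : Fin d} (hd : 2 ≤ d) {w : V d → ℝ} {K A0 : ℝ} (hK : 0 ≤ K)
    (hA0 : 0 ≤ A0) {T h c : ℕ} (hT : 4 ≤ T)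
    (hb : ∀ m : ℕ, T ≤ m → m + T ≤ h → ¬ Far K w (pt i m) (min m (h - m) - 3))
    (hc : ∀ m : ℕ, 1 ≤ m → m ≤ h → (m < T ∨ h < m + T) → -A0 ≤ w (pt i m))
    (ha : ∑ j ∈ range h, GG d K w (pt i j) ≤ ((c * h : ℕ) : ℝ≥0∞))
    (hh : 2 * T * A0 ≤ h) : YY w i (c + 1) h (-((K * (1 + c) + 1) * h)) := by
  classical
  set ρ : ℕ → ℕ := rad K w i h with hρ
  set A : Set (V d) := {y | ∃ m : ℕ, T ≤ m ∧ m + T ≤ h ∧ pt i m ∈ Cl K w ∧
    y ∈ Hull (Cl K w) {pt i m}} with hA
  have hNb : ∀ (k : ℕ) (z : V d), z ∈ Nb A k →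
      z ∈ (range h).biUnion (fun m : ℕ => ball (pt i m) (ρ m + k)) := by
    rintro k z ⟨y, ⟨m, h1, h2, h3, h4⟩, h5⟩
    rw [mem_biUnion]
    refine ⟨m, mem_range.2 (by omega), mem_ball.2 ?_⟩
    have h6 : nm (y - pt i m) ≤ ρ m := nm_le_rad (hb m h1 h2) h4
    have h7 := nm_add_le (z - y) (y - pt i m)
    rw [sub_add_sub_cancel] at h7
    omega
  have hfin : A.Finite := by
    refine Set.Finite.subset ((range h).biUnion (fun m : ℕ => ball (pt i m) (ρ m + 0))).finite_toSet
      ?_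
    intro z hz
    refine hNb 0 z ⟨z, hz, ?_⟩
    rw [sub_self, nm_zero]
  have hcard : ∀ S : Finset (V d), (∀ z ∈ S, z ∈ Nb A 2) → S.card ≤ c * h := by
    intro S hS
    have h1 : S ⊆ (range h).biUnion (fun m : ℕ => ball (pt i m) (ρ m + 2)) := fun z hz =>
      hNb 2 z (hS z hz)
    have h2 : S.card ≤ ∑ m ∈ range h, (2 * (ρ m + 2) + 1) ^ d := by
      refine (card_le_card h1).trans (card_biUnion_le.trans (le_of_eq ?_))
      exact sum_congr rfl fun m _ => card_ball _ _
    have h3 : ((∑ m ∈ range h, (2 * (ρ m + 2) + 1) ^ d : ℕ) : ℝ≥0∞) ≤ ((c * h : ℕ) : ℝ≥0∞) := by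
      refine le_trans ?_ ha
      rw [Nat.cast_sum]
      refine sum_le_sum fun m _ => ?_
      refine le_trans ?_ (GG_ge (far_rad K w i h m))
      have h4 : (2 * (ρ m + 2) + 1) ^ d ≤ (2 * ρ m + 7) ^ d := Nat.pow_le_pow_left (by omega) d
      have h5 : (((2 * (ρ m + 2) + 1) ^ d : ℕ) : ℝ≥0∞) ≤ (((2 * ρ m + 7) ^ d : ℕ) : ℝ≥0∞) :=
        Nat.cast_le.2 h4
      refine h5.trans (le_of_eq ?_)
      push_cast
      rfl
    exact h2.trans (Nat.cast_le.1 h3)
  have hsum : ∀ S : Finset (V d), (∀ z ∈ S, z ∈ line i h ∧ z ∉ A) →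
      -(K * h + 2 * T * A0) ≤ ∑ z ∈ S, w z := by
    intro S hS
    set F : Finset ℕ := (Icc 1 h).filter (fun m : ℕ => pt i (m : ℤ) ∈ S) with hF
    have h1 : S = F.image (fun m : ℕ => pt i (m : ℤ)) := by
      ext z
      rw [mem_image]
      constructor
      · intro hz
        obtain ⟨m, h1, h2, rfl⟩ := mem_line (hS z hz).1
        exact ⟨m, mem_filter.2 ⟨mem_Icc.2 ⟨h1, h2⟩, hz⟩, rfl⟩
      · rintro ⟨m, hm, rfl⟩
        exact (mem_filter.1 hm).2
    have h2 : ∑ z ∈ S, w z = ∑ m ∈ F, w (pt i (m : ℤ)) := by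
      rw [h1, sum_image]
      intro m _ m' _ hm
      have := pt_inj i hm
      exact_mod_cast this
    have h3 : ∀ m ∈ F, -K - (if m < T ∨ h < m + T then A0 else 0) ≤ w (pt i (m : ℤ)) := by
      intro m hm
      obtain ⟨hm1, hm2⟩ := mem_filter.1 hm
      rw [mem_Icc] at hm1
      by_cases h4 : m < T ∨ h < m + T
      · rw [if_pos h4]
        have := hc m hm1.1 hm1.2 h4
        linarith
      · rw [if_neg h4]
        by_contra h5
        have h6 : pt i (m : ℤ) ∈ Cl K w := by
          unfold Cl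
          rw [Set.mem_ofPred_eq]
          linarith
        apply (hS _ hm2).2
        exact ⟨m, by omega, by omega, h6, mem_hull.2 Relation.ReflTransGen.refl⟩
    have h4 : ∑ m ∈ Icc 1 h, (-K - (if m < T ∨ h < m + T then A0 else 0)) ≤
        ∑ m ∈ F, (-K - (if m < T ∨ h < m + T then A0 else 0)) := by
      refine sum_le_sum_of_subset_of_nonpos' (filter_subset _ _) fun m _ _ => ?_
      split_ifs <;> linarith
    have h5 : ∑ m ∈ Icc 1 h, (-K - (if m < T ∨ h < m + T then A0 else 0)) ≥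
        -(K * h + 2 * T * A0) := by
      rw [sum_sub_distrib, sum_const, Nat.card_Icc, ← sum_filter, sum_const]
      have h6 : ((Icc 1 h).filter (fun m => m < T ∨ h < m + T)).card ≤ 2 * T := by
        have h7 : (Icc 1 h).filter (fun m => m < T ∨ h < m + T) ⊆ Icc 1 T ∪ Ioc (h - T) h := by
          intro m hm
          rw [mem_filter, mem_Icc] at hm
          rw [mem_union, mem_Icc, mem_Ioc]
          omega
        refine (card_le_card h7).trans ((card_union_le _ _).trans ?_)
        rw [Nat.card_Icc, Nat.card_Ioc]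
        omega
      have h8 : (((Icc 1 h).filter (fun m => m < T ∨ h < m + T)).card : ℝ) ≤ 2 * T := by
        exact_mod_cast h6
      have h9 := mul_le_mul_of_nonneg_right h8 hA0
      simp only [nsmul_eq_mul, Nat.add_sub_cancel]
      linarith
    rw [h2]
    exact h5.trans (h4.trans (sum_le_sum h3))
  have hpos : ∀ a ∈ A, (0 : V d) i + 2 < a i ∧ a i + 2 < pt i h i := by
    rintro a ⟨m, h1, h2, _, h4⟩
    have h5 := nm_le_rad (hb m h1 h2) h4
    have h6 := rad_lt (hb m h1 h2)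
    have h7 := (nm_le_iff (x := a - pt i m)).1 (le_refl _) i
    rw [Pi.sub_apply, pt_same] at h7
    rw [pt_same, Pi.zero_apply]
    omega
  have hop : ∀ z, z ∉ A → z ∈ Nb A 2 → -K ≤ w z := by
    rintro z hz ⟨y, ⟨m, h1, h2, h3, h4⟩, h5⟩
    by_contra h6
    apply hz
    refine ⟨m, h1, h2, h3, mem_hull.2 ((mem_hull.1 h4).tail ⟨?_, h5⟩)⟩
    unfold Cl
    rw [Set.mem_ofPred_eq]
    linarith
  obtain ⟨l', hl1, hl2, hl3⟩ := hRUN d i hd w K (K * h + 2 * T * A0) A 0 (pt i h) (line i h) (c * h)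
    hK hfin (SB_line i h) hpos hop hsum hcard
  refine ⟨l', hl1, ?_, ?_⟩
  · rw [length_line] at hl2
    refine hl2.trans (le_of_eq ?_)
    ring
  · have h1 := hl3 l' (List.prefix_rfl)
    refine le_trans ?_ h1
    push_cast
    nlinarith [hh]

end Pool.Agent.W308.GP.T3
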